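import Mathlib

/-!
Star partition lemma for two blocks.
-/

namespace Pool.Agent.Work.MP_33f02b_co

open Finset

variable {V W : Type*}

section star

variable (H : SimpleGraph W) (R : Bool → W → W → Prop)

/-- a star partition of `W`, coded by the map sending a vertex to the centre of its star -/
def StarMap (p : W → W) : Prop := ∀ y, p (p y) = p y ∧ (p y = y ∨ H.Adj (p y) y)

/-- the star of centre `z` contains a witness for `i` -/
def Good (p : W → W) (i : Bool) (z : W) : Prop :=
  ∃ x x', p x = z ∧ p x' = z ∧ (x = x' ∨ H.Adj x x') ∧ R i x x'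

open Classical in
/-- weight of a star -/
noncomputable def wt (p : W → W) (z : W) : ℕ :=
  if Good H R p true z ∧ Good H R p false z then 5
  else if Good H R p true z ∨ Good H R p false z then 2 else 0

lemma wt_le_two {p : W → W} {i : Bool} {z : W} (h : ¬ Good H R p i z) : wt H R p z ≤ 2 := by
  unfold wt
  split_ifs with h1 h2
  · cases i
    · exact absurd h1.2 h
    · exact absurd h1.1 h
  · exact le_rfl
  · exact Nat.zero_le _

lemma wt_eq_zero {p : W → W} {z : W} (h : ∀ i, ¬ Good H R p i z) : wt H R p z = 0 := by
  unfold wt
  rw [if_neg (fun h1 => h _ h1.1), if_neg]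
  rintro (h1 | h1)
  · exact h _ h1
  · exact h _ h1

lemma two_le_wt {p : W → W} {i : Bool} {z : W} (h : Good H R p i z) : 2 ≤ wt H R p z := by
  unfold wt
  split_ifs with h1 h2
  · norm_num
  · exact le_rfl
  · exfalso
    apply h2
    cases i
    · exact Or.inr h
    · exact Or.inl h

lemma five_le_wt {p : W → W} {z : W} {i : Bool} (h : Good H R p i z) (h' : Good H R p (!i) z) :
    5 ≤ wt H R p z := by
  unfold wt
  rw [if_pos]
  cases i
  · exact ⟨h', h⟩
  · exact ⟨h, h'⟩

variable [Fintype W]

/-- a star map of maximal total weight -/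
lemma exists_max : ∃ p : W → W, StarMap H p ∧
    ∀ q : W → W, StarMap H q → ∑ z, wt H R q z ≤ ∑ z, wt H R p z := by
  classical
  obtain ⟨p, hp, hmax⟩ := Finset.exists_max_image
    ((Finset.univ : Finset (W → W)).filter (fun p => StarMap H p))
    (fun p => ∑ z, wt H R p z)
    ⟨id, by simp only [Finset.mem_filter, Finset.mem_univ, true_and]; intro y; exact ⟨rfl, Or.inl rfl⟩⟩
  refine ⟨p, (Finset.mem_filter.1 hp).2, fun q hq => hmax q ?_⟩
  simp only [Finset.mem_filter, Finset.mem_univ, true_and]
  exact hq

/-- local change of a star map of maximal weight on the union of two stars -/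
lemma local_change {p : W → W} (hp : StarMap H p)
    (hmax : ∀ q : W → W, StarMap H q → ∑ z, wt H R q z ≤ ∑ z, wt H R p z)
    {z0 z1 : W} (h0 : p z0 = z0) (h1 : p z1 = z1) (h01 : z0 ≠ z1)
    (q : W → W) (hq : ∀ w, ¬ (p w = z0 ∨ p w = z1) → q w = p w)
    (hq' : ∀ w, (p w = z0 ∨ p w = z1) →
      (p (q w) = z0 ∨ p (q w) = z1) ∧ q (q w) = q w ∧ (q w = w ∨ H.Adj (q w) w)) :
    ∀ Z : Finset W, (∀ z ∈ Z, p z = z0 ∨ p z = z1) →
      ∑ z ∈ Z, wt H R q z ≤ wt H R p z0 + wt H R p z1 := by
  classical
  intro Z hZ
  set X : Finset W := Finset.univ.filter (fun w => p w = z0 ∨ p w = z1) with hX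
  have memX : ∀ w, w ∈ X ↔ (p w = z0 ∨ p w = z1) := fun w => by simp [hX]
  have hsq : StarMap H q := by
    intro w
    by_cases hw : p w = z0 ∨ p w = z1
    · exact ⟨(hq' w hw).2.1, (hq' w hw).2.2⟩
    · rw [hq w hw]
      have hw2 : ¬ (p (p w) = z0 ∨ p (p w) = z1) := by rw [(hp w).1]; exact hw
      rw [hq _ hw2]
      exact hp w
  have key : ∀ z, z ∉ X → wt H R q z = wt H R p z := by
    intro z hz
    rw [memX] at hz
    have hfib : ∀ x, q x = z ↔ p x = z := by
      intro x
      by_cases hx : p x = z0 ∨ p x = z1
      · constructor
        · intro h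
          exact absurd (h ▸ (hq' x hx).1) hz
        · intro h
          exfalso
          apply hz
          rw [← h, (hp x).1]
          exact hx
      · rw [hq x hx]
    have hg : ∀ i, Good H R q i z ↔ Good H R p i z := by
      intro i
      unfold Good
      simp only [hfib]
    unfold wt
    simp only [hg]
  have e1 : ∑ z, wt H R q z = ∑ z ∈ X, wt H R q z + ∑ z ∈ Xᶜ, wt H R q z :=
    (Finset.sum_add_sum_compl X _).symm
  have e2 : ∑ z, wt H R p z = ∑ z ∈ X, wt H R p z + ∑ z ∈ Xᶜ, wt H R p z :=
    (Finset.sum_add_sum_compl X _).symm
  have e3 : ∑ z ∈ Xᶜ, wt H R q z = ∑ z ∈ Xᶜ, wt H R p z :=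
    Finset.sum_congr rfl (fun z hz => key z (Finset.mem_compl.1 hz))
  have e4 : ∑ z ∈ X, wt H R p z = wt H R p z0 + wt H R p z1 := by
    rw [← Finset.sum_pair h01]
    symm
    apply Finset.sum_subset
    · intro z hz
      rw [memX]
      rcases Finset.mem_insert.1 hz with h | h
      · left; rw [h, h0]
      · right; rw [Finset.mem_singleton.1 h, h1]
    · intro z hz hz2
      apply wt_eq_zero
      rintro i ⟨x, x', hx, -⟩
      apply hz2
      have h3 : p z = z := by rw [← hx, (hp x).1]
      rw [memX, h3] at hz
      simpa using hz
  have e5 : ∑ z ∈ Z, wt H R q z ≤ ∑ z ∈ X, wt H R q z :=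
    Finset.sum_le_sum_of_subset (fun z hz => (memX z).2 (hZ z hz))
  have := hmax q hsq
  omega

/-- In a star partition of maximal weight every `R i`-edge meets a star containing an
`R i`-witness. -/
lemma max_good {p : W → W} (hp : StarMap H p)
    (hmax : ∀ q : W → W, StarMap H q → ∑ z, wt H R q z ≤ ∑ z, wt H R p z)
    (hR : ∀ i x x', R i x x' → R i x' x) (i : Bool) (y y' : W) (hadj : H.Adj y y')
    (hy : R i y y') : Good H R p i (p y) ∨ Good H R p i (p y') := by
  classical
  by_contra hcon
  rw [not_or] at hcon
  obtain ⟨hc0, hc1⟩ := hcon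
  have hne : p y ≠ p y' := fun h => hc0 ⟨y, y', rfl, h.symm, Or.inr hadj, hy⟩
  have hyy : y ≠ y' := hadj.ne
  have lc := local_change H R hp hmax (hp y).1 (hp y').1 hne
  have w0 := wt_le_two H R hc0
  have w1 := wt_le_two H R hc1
  -- case 1: a star with three vertices around y (or y')
  have case1 : ∀ a b : W, H.Adj a b → R i a b → ((p a = p y ∧ p b = p y') ∨ (p a = p y' ∧ p b = p y)) →
      ∀ x, (p x = p y ∨ p x = p y') → (x = a ∨ H.Adj a x) → R (!i) a x → False := by
    intro a b hab hRab hpab x hx hax hRx
    set q : W → W := fun w => if w = a ∨ w = b ∨ w = x then a else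
      if p w = p y ∨ p w = p y' then w else p w with hqdef
    have qeq : ∀ w, q w = if w = a ∨ w = b ∨ w = x then a else
      if p w = p y ∨ p w = p y' then w else p w := fun w => rfl
    have qa : q a = a := by rw [qeq, if_pos (Or.inl rfl)]
    have hq := lc q ?_ ?_ {a} ?_
    · rw [Finset.sum_singleton] at hq
      have h5 : 5 ≤ wt H R q a := by
        apply five_le_wt H R (i := i)
        · exact ⟨a, b, qa, by rw [qeq, if_pos (Or.inr (Or.inl rfl))], Or.inr hab, hRab⟩
        · refine ⟨a, x, qa, by rw [qeq, if_pos (Or.inr (Or.inr rfl))], ?_, hRx⟩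
          rcases hax with h | h
          · exact Or.inl h.symm
          · exact Or.inr h
      omega
    · intro w hw
      have h1 : ¬ (w = a ∨ w = b ∨ w = x) := by
        rintro (h | h | h)
        · subst h; apply hw; rcases hpab with h | h
          · exact Or.inl h.1
          · exact Or.inr h.1
        · subst h; apply hw; rcases hpab with h | h
          · exact Or.inr h.2
          · exact Or.inl h.2
        · subst h; exact hw hx
      rw [qeq, if_neg h1, if_neg hw]
    · intro w hw
      have ha : p a = p y ∨ p a = p y' := by
        rcases hpab with h | h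
        · exact Or.inl h.1
        · exact Or.inr h.1
      by_cases h1 : w = a ∨ w = b ∨ w = x
      · have e : q w = a := by rw [qeq, if_pos h1]
        rw [e]
        refine ⟨ha, qa, ?_⟩
        rcases h1 with h | h | h
        · exact Or.inl h.symm
        · right; rw [h]; exact hab
        · rcases hax with h2 | h2
          · left; rw [h, h2]
          · right; rw [h]; exact h2
      · have e : q w = w := by rw [qeq, if_neg h1, if_pos hw]
        rw [e, e]
        exact ⟨hw, rfl, Or.inl rfl⟩
    · intro z hz
      rw [Finset.mem_singleton] at hz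
      subst hz
      rcases hpab with h | h
      · exact Or.inl h.1
      · exact Or.inr h.1
  -- case 2: disjoint small stars
  have case2 : ∀ x x' u u' : W,
      ((x = y ∧ x' = y) ∨ (p x = p y ∧ p x' = p y ∧ (x = x' ∨ H.Adj x x') ∧ R (!i) x x' ∧ x ≠ y ∧ x' ≠ y)) →
      ((u = y ∧ u' = y) ∨ (p u = p y' ∧ p u' = p y' ∧ (u = u' ∨ H.Adj u u') ∧ R (!i) u u' ∧ u ≠ y' ∧ u' ≠ y')) →
      (if x = y then 0 else 2) + (if u = y then 0 else 2) + 2 ≤ wt H R p (p y) + wt H R p (p y') := by
    intro x x' u u' hx hu
    have hxX : p x = p y ∧ p x' = p y := by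
      rcases hx with h | h
      · rw [h.1, h.2]; exact ⟨rfl, rfl⟩
      · exact ⟨h.1, h.2.1⟩
    have hxne : x ≠ y' ∧ x' ≠ y' := ⟨fun h => hne (by rw [← h, hxX.1]), fun h => hne (by rw [← h, hxX.2])⟩
    have hune : u = y ∨ (u ≠ y ∧ u' ≠ y ∧ u ≠ x ∧ u ≠ x' ∧ u' ≠ x ∧ u' ≠ x' ∧ p u = p y' ∧ p u' = p y') := by
      rcases hu with h | h
      · exact Or.inl h.1
      · right
        refine ⟨fun e => hne ?_, fun e => hne ?_, fun e => hne ?_, fun e => hne ?_, fun e => hne ?_,
          fun e => hne ?_, h.1, h.2.1⟩
        · rw [← e]; exact h.1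
        · rw [← e]; exact h.2.1
        · rw [← hxX.1, ← e]; exact h.1
        · rw [← hxX.2, ← e]; exact h.1
        · rw [← hxX.1, ← e]; exact h.2.1
        · rw [← hxX.2, ← e]; exact h.2.1
    set q : W → W := fun w => if w = y ∨ w = y' then y else if w = x ∨ w = x' then x else
      if w = u ∨ w = u' then u else if p w = p y ∨ p w = p y' then w else p w with hqdef
    have qeq : ∀ w, q w = if w = y ∨ w = y' then y else if w = x ∨ w = x' then x else
      if w = u ∨ w = u' then u else if p w = p y ∨ p w = p y' then w else p w := fun w => rfl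
    have hq := lc q ?_ ?_ {y, x, u} ?_
    · refine le_trans ?_ hq
      have gy : Good H R q i y := ⟨y, y', by rw [qeq, if_pos (Or.inl rfl)],
        by rw [qeq, if_pos (Or.inr rfl)], Or.inr hadj, hy⟩
      have gy2 := two_le_wt H R gy
      rcases hx with hx | hx
      · rw [if_pos hx.1]
        rcases hu with hu | hu
        · rw [if_pos hu.1, hx.1, hu.1]
          simpa using gy2
        · have hune' := hune.resolve_left (by
            intro h; exact hne (by rw [← h]; exact hu.1))
          rw [if_neg hune'.1, hx.1]
          have gu : Good H R q (!i) u := by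
            refine ⟨u, u', ?_, ?_, hu.2.2.1, hu.2.2.2.1⟩
            · rw [qeq, if_neg, if_neg, if_pos (Or.inl rfl)]
              · rintro (h | h)
                · exact hune'.2.2.1 h
                · exact hune'.2.2.2.1 h
              · rintro (h | h)
                · exact hune'.1 h
                · exact hu.2.2.2.2.1 h
            · rw [qeq, if_neg, if_neg, if_pos (Or.inr rfl)]
              · rintro (h | h)
                · exact hune'.2.2.2.2.1 h
                · exact hune'.2.2.2.2.2.1 h
              · rintro (h | h)
                · exact hune'.2.1 h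
                · exact hu.2.2.2.2.2 h
          have gu2 := two_le_wt H R gu
          have : ({y, y, u} : Finset W) = {y, u} := by simp
          rw [this, Finset.sum_pair (Ne.symm hune'.1)]
          omega
      · have gx : Good H R q (!i) x := by
          refine ⟨x, x', ?_, ?_, hx.2.2.1, hx.2.2.2.1⟩
          · rw [qeq, if_neg, if_pos (Or.inl rfl)]
            rintro (h | h)
            · exact hx.2.2.2.2.1 h
            · exact hxne.1 h
          · rw [qeq, if_neg, if_pos (Or.inr rfl)]
            rintro (h | h)
            · exact hx.2.2.2.2.2 h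
            · exact hxne.2 h
        have gx2 := two_le_wt H R gx
        rw [if_neg hx.2.2.2.2.1]
        rcases hu with hu | hu
        · rw [if_pos hu.1, hu.1]
          have : ({y, x, y} : Finset W) = {y, x} := by
            ext w; simp; tauto
          rw [this, Finset.sum_pair (Ne.symm hx.2.2.2.2.1)]
          omega
        · have hune' := hune.resolve_left (by
            intro h; exact hne (by rw [← h]; exact hu.1))
          rw [if_neg hune'.1]
          have gu : Good H R q (!i) u := by
            refine ⟨u, u', ?_, ?_, hu.2.2.1, hu.2.2.2.1⟩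
            · rw [qeq, if_neg, if_neg, if_pos (Or.inl rfl)]
              · rintro (h | h)
                · exact hune'.2.2.1 h
                · exact hune'.2.2.2.1 h
              · rintro (h | h)
                · exact hune'.1 h
                · exact hu.2.2.2.2.1 h
            · rw [qeq, if_neg, if_neg, if_pos (Or.inr rfl)]
              · rintro (h | h)
                · exact hune'.2.2.2.2.1 h
                · exact hune'.2.2.2.2.2.1 h
              · rintro (h | h)
                · exact hune'.2.1 h
                · exact hu.2.2.2.2.2 h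
          have gu2 := two_le_wt H R gu
          rw [Finset.sum_insert, Finset.sum_pair (Ne.symm hune'.2.2.1)]
          · omega
          · simp only [Finset.mem_insert, Finset.mem_singleton, not_or]
            exact ⟨Ne.symm hx.2.2.2.2.1, Ne.symm hune'.1⟩
    · intro w hw
      have h1 : ¬ (w = y ∨ w = y') := by
        rintro (h | h)
        · subst h; exact hw (Or.inl rfl)
        · subst h; exact hw (Or.inr rfl)
      have h2 : ¬ (w = x ∨ w = x') := by
        rintro (h | h)
        · subst h; exact hw (Or.inl hxX.1)
        · subst h; exact hw (Or.inl hxX.2)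
      have h3 : ¬ (w = u ∨ w = u') := by
        rcases hu with hu | hu
        · rw [hu.1, hu.2]
          rintro (h | h)
          · exact h1 (Or.inl h)
          · exact h1 (Or.inl h)
        · rintro (h | h)
          · subst h; exact hw (Or.inr hu.1)
          · subst h; exact hw (Or.inr hu.2.1)
      rw [qeq, if_neg h1, if_neg h2, if_neg h3, if_neg hw]
    · intro w hw
      by_cases h1 : w = y ∨ w = y'
      · have e : q w = y := by rw [qeq, if_pos h1]
        rw [e]
        refine ⟨Or.inl rfl, by rw [qeq, if_pos (Or.inl rfl)], ?_⟩
        rcases h1 with h | h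
        · exact Or.inl h.symm
        · right; rw [h]; exact hadj
      · by_cases h2 : w = x ∨ w = x'
        · have e : q w = x := by rw [qeq, if_neg h1, if_pos h2]
          rcases hx with hx | hx
          · exfalso
            rw [hx.1, hx.2] at h2
            rcases h2 with h | h <;> exact h1 (Or.inl h)
          · rw [e]
            refine ⟨Or.inl hxX.1, ?_, ?_⟩
            · have hxy : ¬ (x = y ∨ x = y') := by
                rintro (h | h)
                · exact hx.2.2.2.2.1 h
                · exact hxne.1 h
              rw [qeq, if_neg hxy, if_pos (Or.inl rfl)]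
            · rcases h2 with h | h
              · exact Or.inl h.symm
              · rw [h]
                rcases hx.2.2.1 with h3 | h3
                · exact Or.inl h3
                · exact Or.inr h3
        · by_cases h3 : w = u ∨ w = u'
          · have e : q w = u := by rw [qeq, if_neg h1, if_neg h2, if_pos h3]
            rcases hu with hu | hu
            · exfalso
              rw [hu.1, hu.2] at h3
              rcases h3 with h | h <;> exact h1 (Or.inl h)
            · have hune' := hune.resolve_left (by
                intro h; exact hne (by rw [← h]; exact hu.1))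
              rw [e]
              refine ⟨Or.inr hu.1, ?_, ?_⟩
              · have huy : ¬ (u = y ∨ u = y') := by
                  rintro (h | h)
                  · exact hune'.1 h
                  · exact hu.2.2.2.2.1 h
                have hux : ¬ (u = x ∨ u = x') := by
                  rintro (h | h)
                  · exact hune'.2.2.1 h
                  · exact hune'.2.2.2.1 h
                rw [qeq, if_neg huy, if_neg hux, if_pos (Or.inl rfl)]
              · rcases h3 with h | h
                · exact Or.inl h.symm
                · rw [h]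
                  rcases hu.2.2.1 with h4 | h4
                  · exact Or.inl h4
                  · exact Or.inr h4
          · have e : q w = w := by rw [qeq, if_neg h1, if_neg h2, if_neg h3, if_pos hw]
            rw [e, e]
            exact ⟨hw, rfl, Or.inl rfl⟩
    · intro z hz
      simp only [Finset.mem_insert, Finset.mem_singleton] at hz
      rcases hz with h | h | h
      · rw [h]; exact Or.inl rfl
      · rw [h]; exact Or.inl hxX.1
      · rw [h]
        rcases hu with hu | hu
        · rw [hu.1]; exact Or.inl rfl
        · exact Or.inr hu.1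
  -- put the cases together
  by_cases g0 : Good H R p (!i) (p y)
  · obtain ⟨x, x', hx, hx', hxx, hRx⟩ := g0
    by_cases e1 : x = y
    · subst e1
      exact case1 x y' hadj hy (Or.inl ⟨rfl, rfl⟩) x' (Or.inl hx') (by
        rcases hxx with h | h
        · exact Or.inl h.symm
        · exact Or.inr h) hRx
    by_cases e2 : x' = y
    · subst e2
      exact case1 x' y' hadj hy (Or.inl ⟨rfl, rfl⟩) x (Or.inl hx) (by
        rcases hxx with h | h
        · exact Or.inl h
        · exact Or.inr h.symm) (hR _ _ _ hRx)
    by_cases g1 : Good H R p (!i) (p y')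
    · obtain ⟨u, u', hu, hu', huu, hRu⟩ := g1
      by_cases e3 : u = y'
      · subst e3
        exact case1 u y hadj.symm (hR _ _ _ hy) (Or.inr ⟨rfl, rfl⟩) u' (Or.inr hu') (by
          rcases huu with h | h
          · exact Or.inl h.symm
          · exact Or.inr h) hRu
      by_cases e4 : u' = y'
      · subst e4
        exact case1 u' y hadj.symm (hR _ _ _ hy) (Or.inr ⟨rfl, rfl⟩) u (Or.inr hu) (by
          rcases huu with h | h
          · exact Or.inl h
          · exact Or.inr h.symm) (hR _ _ _ hRu)
      have := case2 x x' u u' (Or.inr ⟨hx, hx', hxx, hRx, e1, e2⟩)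
        (Or.inr ⟨hu, hu', huu, hRu, e3, e4⟩)
      have huy : u ≠ y := fun h => hne (by rw [← h]; exact hu)
      rw [if_neg e1, if_neg huy] at this
      omega
    · have := case2 x x' y y (Or.inr ⟨hx, hx', hxx, hRx, e1, e2⟩) (Or.inl ⟨rfl, rfl⟩)
      rw [if_neg e1, if_pos rfl] at this
      have w1' : wt H R p (p y') = 0 := wt_eq_zero H R (by
        intro j
        cases i <;> cases j <;> simp_all)
      omega
  · have w0' : wt H R p (p y) = 0 := wt_eq_zero H R (by
        intro j
        cases i <;> cases j <;> simp_all)
    by_cases g1 : Good H R p (!i) (p y')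
    · obtain ⟨u, u', hu, hu', huu, hRu⟩ := g1
      by_cases e3 : u = y'
      · subst e3
        exact case1 u y hadj.symm (hR _ _ _ hy) (Or.inr ⟨rfl, rfl⟩) u' (Or.inr hu') (by
          rcases huu with h | h
          · exact Or.inl h.symm
          · exact Or.inr h) hRu
      by_cases e4 : u' = y'
      · subst e4
        exact case1 u' y hadj.symm (hR _ _ _ hy) (Or.inr ⟨rfl, rfl⟩) u (Or.inr hu) (by
          rcases huu with h | h
          · exact Or.inl h
          · exact Or.inr h.symm) (hR _ _ _ hRu)
      have := case2 y y u u' (Or.inl ⟨rfl, rfl⟩) (Or.inr ⟨hu, hu', huu, hRu, e3, e4⟩)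
      have huy : u ≠ y := fun h => hne (by rw [← h]; exact hu)
      rw [if_pos rfl, if_neg huy] at this
      omega
    · have := case2 y y y y (Or.inl ⟨rfl, rfl⟩) (Or.inl ⟨rfl, rfl⟩)
      rw [if_pos rfl] at this
      have w1' : wt H R p (p y') = 0 := wt_eq_zero H R (by
        intro j
        cases i <;> cases j <;> simp_all)
      omega

end star

end Pool.Agent.Work.MP_33f02b_co
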