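import Mathlib
import Pool.Agent.Work.MP_33f02b_co.Star

/-!
Paying for singletons and two further blocks.
-/

namespace Pool.Agent.Work.MP_33f02b_co

open Finset

variable {V W : Type*}

/-- Star partition payment: singletons `S` and two blocks `T true`, `T false`. -/
theorem blocks_two [Fintype W] (H : SimpleGraph W) (L : W → Set V)
    (S : Finset V) (T : Bool → Set V) (c : W → ℕ)
    (hP : ∀ P : Finset W, ∀ S' ⊆ S, ∀ B : Finset Bool, (∀ g ∈ S', ∃ y ∈ P, g ∈ L y) →
      (∀ i ∈ B, ∀ t ∈ T i, ∃ y ∈ P, t ∈ L y) → S'.card + B.card ≤ ∑ y ∈ P, c y) :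
    ∃ (E : V → Finset W) (F : Bool → Finset W),
      (∀ g ∈ S, ∀ y, g ∈ L y → ∃ z ∈ E g, z = y ∨ H.Adj z y) ∧
      (∀ i y y', H.Adj y y' → (∀ t ∈ T i, t ∈ L y ∨ t ∈ L y') →
        (∃ z ∈ F i, z = y ∨ H.Adj z y) ∨ (∃ z ∈ F i, z = y' ∨ H.Adj z y')) ∧
      ∑ g ∈ S, (E g).card + ∑ i, (F i).card ≤ ∑ y, c y := by
  classical
  set R : Bool → W → W → Prop := fun i x x' => ∀ t ∈ T i, t ∈ L x ∨ t ∈ L x' with hRdef
  have hR : ∀ i x x', R i x x' → R i x' x := fun i x x' h t ht => (h t ht).symm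
  obtain ⟨p, hp, hmax⟩ := exists_max H R
  refine ⟨fun g => univ.filter (fun z => ∃ y, p y = z ∧ g ∈ L y),
    fun i => univ.filter (fun z => Good H R p i z), ?_, ?_, ?_⟩
  · intro g _ y hy
    refine ⟨p y, ?_, (hp y).2⟩
    simp only [mem_filter, mem_univ, true_and]
    exact ⟨y, rfl, hy⟩
  · intro i y y' hadj hy
    rcases max_good H R hp hmax hR i y y' hadj hy with h | h
    · left
      exact ⟨p y, by simp only [mem_filter, mem_univ, true_and]; exact h, (hp y).2⟩
    · right
      exact ⟨p y', by simp only [mem_filter, mem_univ, true_and]; exact h, (hp y').2⟩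
  · have e1 : ∑ g ∈ S, (univ.filter (fun z => ∃ y, p y = z ∧ g ∈ L y)).card =
        ∑ z : W, (S.filter (fun g => ∃ y, p y = z ∧ g ∈ L y)).card := by
      simp only [card_filter]
      rw [sum_comm]
    have e2 : ∑ i : Bool, (univ.filter (fun z => Good H R p i z)).card =
        ∑ z : W, ((univ : Finset Bool).filter (fun i => Good H R p i z)).card := by
      simp only [card_filter]
      rw [sum_comm]
    rw [e1, e2, ← sum_add_distrib]
    have e3 : ∑ y, c y = ∑ z : W, ∑ y ∈ univ.filter (fun y => p y = z), c y :=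
      (Finset.sum_fiberwise univ p c).symm
    rw [e3]
    apply sum_le_sum
    intro z _
    apply hP (univ.filter (fun y => p y = z)) _ (filter_subset _ _)
    · intro g hg
      obtain ⟨-, y, hy, hgy⟩ := mem_filter.1 hg
      exact ⟨y, by simp [hy], hgy⟩
    · intro i hi t ht
      obtain ⟨-, x, x', hx, hx', -, hxx⟩ := mem_filter.1 hi
      rcases hxx t ht with h | h
      · exact ⟨x, by simp [hx], h⟩
      · exact ⟨x', by simp [hx'], h⟩

end Pool.Agent.Work.MP_33f02b_co
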