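import Mathlib

/-!
Isolation number, domination of a set, independence-domination number.
-/

namespace Pool.Agent.Work.MP_33f02b_co

variable {V W : Type*}

/-- The closed neighbourhood `N[A]` of a set of vertices. -/
def closedNbhd (G : SimpleGraph V) (A : Set V) : Set V :=
  {v | v ∈ A ∨ ∃ a ∈ A, G.Adj a v}

/-- `A` is isolating: no edge has both end points outside `N[A]`. -/
def IsIsolating (G : SimpleGraph V) (A : Set V) : Prop :=
  ∀ u v, G.Adj u v → u ∈ closedNbhd G A ∨ v ∈ closedNbhd G A

/-- The isolation number: smallest cardinality of an isolating set. -/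
noncomputable def isolationNumber (G : SimpleGraph V) : ℕ :=
  sInf {n | ∃ A : Finset V, IsIsolating G (A : Set V) ∧ A.card = n}

/-- The smallest cardinality of a set of vertices of `G` dominating `I`. -/
noncomputable def dominationOf (G : SimpleGraph V) (I : Set V) : ℕ :=
  sInf {n | ∃ D : Finset V, I ⊆ closedNbhd G (D : Set V) ∧ D.card = n}

/-- The independence-domination number: the largest value of `dominationOf G I` over all
independent sets `I`. -/
noncomputable def indepDomination (G : SimpleGraph V) : ℕ :=
  sSup {n | ∃ I : Set V, G.IsIndepSet I ∧ dominationOf G I = n}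

lemma closedNbhd_mono (G : SimpleGraph V) {A B : Set V} (h : A ⊆ B) :
    closedNbhd G A ⊆ closedNbhd G B := by
  rintro v (hv | ⟨a, ha, hav⟩)
  · exact Or.inl (h hv)
  · exact Or.inr ⟨a, h ha, hav⟩

lemma subset_closedNbhd (G : SimpleGraph V) (A : Set V) : A ⊆ closedNbhd G A :=
  fun _ hv => Or.inl hv

lemma isolationNumber_le (G : SimpleGraph V) {A : Finset V} (h : IsIsolating G (A : Set V)) :
    isolationNumber G ≤ A.card := Nat.sInf_le ⟨A, h, rfl⟩

lemma exists_isolating [Fintype V] (G : SimpleGraph V) :
    ∃ A : Finset V, IsIsolating G (A : Set V) ∧ A.card = isolationNumber G := by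
  have : {n | ∃ A : Finset V, IsIsolating G (A : Set V) ∧ A.card = n}.Nonempty :=
    ⟨_, Finset.univ, fun u v _ => Or.inl (Or.inl (by simp)), rfl⟩
  exact Nat.sInf_mem this

lemma dominationOf_le (G : SimpleGraph V) {I : Set V} {D : Finset V}
    (h : I ⊆ closedNbhd G (D : Set V)) : dominationOf G I ≤ D.card := Nat.sInf_le ⟨D, h, rfl⟩

lemma exists_dominating [Fintype V] (G : SimpleGraph V) (I : Set V) :
    ∃ D : Finset V, I ⊆ closedNbhd G (D : Set V) ∧ D.card = dominationOf G I := by
  have : {n | ∃ D : Finset V, I ⊆ closedNbhd G (D : Set V) ∧ D.card = n}.Nonempty :=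
    ⟨_, Finset.univ, fun v _ => Or.inl (by simp), rfl⟩
  exact Nat.sInf_mem this

lemma dominationOf_mono [Fintype V] (G : SimpleGraph V) {I J : Set V} (h : I ⊆ J) :
    dominationOf G I ≤ dominationOf G J := by
  obtain ⟨D, hD, hc⟩ := exists_dominating G J
  rw [← hc]
  exact dominationOf_le G (h.trans hD)

lemma dominationOf_empty (G : SimpleGraph V) : dominationOf G ∅ = 0 := by
  have := dominationOf_le G (I := ∅) (D := ∅) (by simp)
  simpa using this

lemma dominationOf_insert_le [Fintype V] (G : SimpleGraph V) (I : Set V) (v : V) :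
    dominationOf G (insert v I) ≤ dominationOf G I + 1 := by
  classical
  obtain ⟨D, hD, hc⟩ := exists_dominating G I
  have : dominationOf G (insert v I) ≤ (insert v D).card := by
    apply dominationOf_le
    intro w hw
    rcases hw with rfl | hw
    · left; simp
    · apply closedNbhd_mono G _ (hD hw)
      intro x hx
      simp only [Finset.coe_insert]
      exact Or.inr hx
  have h2 := Finset.card_insert_le v D
  omega

end Pool.Agent.Work.MP_33f02b_co
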