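import Mathlib
import Pool.Agent.Work.MP_33f02b_co.Defs
import Pool.Agent.Work.MP_33f02b_co.Blocks

/-!
Lower bound for the part of an isolating set of `G □ H` lying over `N[I]`.
-/

namespace Pool.Agent.Work.MP_33f02b_co

open Finset

variable {V W : Type*}

/-- fibre lemma -/
lemma fibre_isolating (G : SimpleGraph V) (H : SimpleGraph W) {D : Set (V × W)}
    (hD : IsIsolating (G □ H) D) {I : Set V} (J : Set V) (hJ : J ⊆ I) (E : Set W)
    (hE : ∀ y y', H.Adj y y' →
      (∀ g ∈ J, (g ∈ I ∧ ∃ v, (v, y) ∈ D ∧ G.Adj v g) ∨ (g ∈ I ∧ ∃ v, (v, y') ∈ D ∧ G.Adj v g)) →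
      y ∈ closedNbhd H E ∨ y' ∈ closedNbhd H E) :
    IsIsolating H ({y | ∃ g ∈ J, (g, y) ∈ D} ∪ E) := by
  intro y y' hadj
  by_contra hcon
  rw [not_or] at hcon
  obtain ⟨h1, h2⟩ := hcon
  have hE1 : y ∉ closedNbhd H E := fun h => h1 (closedNbhd_mono H Set.subset_union_right h)
  have hE2 : y' ∉ closedNbhd H E := fun h => h2 (closedNbhd_mono H Set.subset_union_right h)
  apply (hE y y' hadj _).elim hE1 hE2
  intro g hg
  have hgI := hJ hg
  have aux : ∀ z, (g, z) ∈ closedNbhd (G □ H) D →
      z ∉ closedNbhd H ({y | ∃ g ∈ J, (g, y) ∈ D} ∪ E) → ∃ v, (v, z) ∈ D ∧ G.Adj v g := by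
    intro z hz hzn
    rcases hz with hz | ⟨⟨v, w⟩, hvw, hz⟩
    · exact absurd (Or.inl (Or.inl ⟨g, hg, hz⟩)) hzn
    · rw [SimpleGraph.boxProd_adj] at hz
      rcases hz with ⟨hz, hw⟩ | ⟨hz, hv⟩
      · simp only at hw hz
        subst hw
        exact ⟨v, hvw, hz⟩
      · simp only at hv hz
        subst hv
        exact absurd (Or.inr ⟨w, Or.inl ⟨v, hg, hvw⟩, hz⟩) hzn
  have hadj' : (G □ H).Adj (g, y) (g, y') := by
    rw [SimpleGraph.boxProd_adj]
    exact Or.inr ⟨hadj, rfl⟩
  rcases hD _ _ hadj' with h | h
  · left; exact ⟨hgI, aux y h h1⟩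
  · right; exact ⟨hgI, aux y' h h2⟩

/-- One vertex: the part over `N[g]` projects to an isolating set. -/
lemma piece_one [Fintype V] [Fintype W] (G : SimpleGraph V) (H : SimpleGraph W)
    (D : Finset (V × W)) (hD : IsIsolating (G □ H) (D : Set (V × W))) (g : V) [DecidableEq V]
    [DecidableEq W] [DecidablePred (fun x : V × W => x.1 ∈ closedNbhd G {g})] :
    isolationNumber H ≤ (D.filter (fun x => x.1 ∈ closedNbhd G {g})).card := by
  have h1 : IsIsolating H (((D.filter (fun x => x.1 ∈ closedNbhd G {g})).image Prod.snd : Finset W) :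
      Set W) := by
    have := fibre_isolating G H hD (I := {g}) {g} subset_rfl
      (((D.filter (fun x => x.1 ∈ closedNbhd G {g})).image Prod.snd : Finset W) : Set W) ?_
    · have e : ({y | ∃ g' ∈ ({g} : Set V), (g', y) ∈ (D : Set (V × W))} ∪
          (((D.filter (fun x => x.1 ∈ closedNbhd G {g})).image Prod.snd : Finset W) : Set W)) =
          (((D.filter (fun x => x.1 ∈ closedNbhd G {g})).image Prod.snd : Finset W) : Set W) := by
        apply Set.union_eq_self_of_subset_left
        rintro y ⟨g', hg', hy⟩
        rw [Set.mem_singleton_iff] at hg'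
        subst hg'
        simp only [Finset.coe_image, Finset.coe_filter, Set.mem_image, Set.mem_ofPred_eq]
        exact ⟨(g', y), ⟨hy, Or.inl rfl⟩, rfl⟩
      rw [e] at this
      exact this
    · intro y y' _ h
      rcases h g rfl with ⟨-, v, hv, hvg⟩ | ⟨-, v, hv, hvg⟩
      · left
        left
        simp only [Finset.coe_image, Finset.coe_filter, Set.mem_image, Set.mem_ofPred_eq]
        exact ⟨(v, y), ⟨hv, Or.inr ⟨g, rfl, hvg.symm⟩⟩, rfl⟩
      · right
        left
        simp only [Finset.coe_image, Finset.coe_filter, Set.mem_image, Set.mem_ofPred_eq]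
        exact ⟨(v, y'), ⟨hv, Or.inr ⟨g, rfl, hvg.symm⟩⟩, rfl⟩
  exact (isolationNumber_le H h1).trans Finset.card_image_le

/-- Singletons and two blocks. -/
theorem piece_two [Fintype V] [Fintype W] (G : SimpleGraph V) (H : SimpleGraph W)
    [DecidableEq V] [DecidableEq W]
    (D : Finset (V × W)) (hD : IsIsolating (G □ H) (D : Set (V × W))) (I : Set V)
    (hI : G.IsIndepSet I) (S : Finset V) (hS : (S : Set V) ⊆ I) (a b : V)
    (hab : I ⊆ (S : Set V) ∪ closedNbhd G {a, b}) (hk : S.card + 2 ≤ dominationOf G I)
    [DecidablePred (fun x : V × W => x.1 ∈ closedNbhd G I)] :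
    (S.card + 2) * isolationNumber H ≤ (D.filter (fun x => x.1 ∈ closedNbhd G I)).card := by
  classical
  set L : W → Set V := fun y => {g | g ∈ I ∧ ∃ v, (v, y) ∈ (D : Set (V × W)) ∧ G.Adj v g} with hL
  set T : Bool → Set V := fun i => {t | t ∈ I ∧ t ∉ S ∧ (if i then (t = a ∨ G.Adj a t)
    else ¬ (t = a ∨ G.Adj a t))} with hT
  set d : Bool → V := fun i => if i then a else b with hd
  have hTd : ∀ i, ∀ t ∈ T i, t = d i ∨ G.Adj (d i) t := by
    intro i t ht
    simp only [hT, Set.mem_ofPred_eq] at ht
    cases i
    · simp only [hd, if_neg Bool.false_ne_true]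
      simp only [Bool.false_eq_true, if_false, not_or] at ht
      rcases hab ht.1 with h | h
      · exact absurd h ht.2.1
      · rcases h with h | ⟨x, hx, hxt⟩
        · rcases h with h | h
          · exact absurd h ht.2.2.1
          · exact Or.inl h
        · rcases hx with h | h
          · rw [h] at hxt; exact absurd hxt ht.2.2.2
          · rw [Set.mem_singleton_iff] at h
            rw [h] at hxt; exact Or.inr hxt
    · simp only [if_true] at ht
      simp only [hd, if_true]
      exact ht.2.2
  have hcov : ∀ t ∈ I, t ∉ S → ∃ i, t ∈ T i := by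
    intro t ht hts
    by_cases h : t = a ∨ G.Adj a t
    · exact ⟨true, ht, hts, by simpa using h⟩
    · exact ⟨false, ht, hts, by simpa using h⟩
  set C : W → Finset V := fun y => univ.filter (fun v => (v, y) ∈ D ∧ v ∉ I ∧ ∃ g ∈ I, G.Adj v g)
    with hC
  obtain ⟨E, F, hE, hF, hsum⟩ := blocks_two H L S T (fun y => (C y).card) (by
    intro P S' hS' B hSB hB
    have hdom : I ⊆ closedNbhd G ((P.biUnion C ∪ (S \ S') ∪ (univ \ B).image d : Finset V) : Set V) := by
      intro t ht
      have cov : (∃ y ∈ P, t ∈ L y) → t ∈ closedNbhd G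
          ((P.biUnion C ∪ (S \ S') ∪ (univ \ B).image d : Finset V) : Set V) := by
        rintro ⟨y, hy, -, v, hv, hvt⟩
        right
        refine ⟨v, ?_, hvt⟩
        simp only [Finset.coe_union, Set.mem_union, Finset.mem_coe]
        left; left
        rw [mem_biUnion]
        refine ⟨y, hy, ?_⟩
        simp only [hC, mem_filter, mem_univ, true_and]
        exact ⟨hv, fun hvI => hI hvI ht hvt.ne hvt, t, ht, hvt⟩
      by_cases hts : t ∈ S
      · by_cases hts' : t ∈ S'
        · exact cov (hSB t hts')
        · left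
          simp only [Finset.coe_union, Set.mem_union, Finset.mem_coe]
          left; right
          exact mem_sdiff.2 ⟨hts, hts'⟩
      · obtain ⟨i, hi⟩ := hcov t ht hts
        by_cases hiB : i ∈ B
        · exact cov (hB i hiB t hi)
        · have hmem : d i ∈ ((P.biUnion C ∪ (S \ S') ∪ (univ \ B).image d : Finset V) : Set V) := by
            simp only [Finset.coe_union, Set.mem_union, Finset.mem_coe]
            right
            exact mem_image_of_mem d (mem_sdiff.2 ⟨mem_univ _, hiB⟩)
          rcases hTd i t hi with h | h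
          · left; rw [h]; exact hmem
          · right; exact ⟨d i, hmem, h⟩
    have h1 := dominationOf_le G hdom
    have h2 : (P.biUnion C ∪ (S \ S') ∪ (univ \ B).image d : Finset V).card ≤
        ∑ y ∈ P, (C y).card + (S \ S').card + (univ \ B).card :=
      (card_union_le _ _).trans (Nat.add_le_add ((card_union_le _ _).trans
        (Nat.add_le_add card_biUnion_le le_rfl)) card_image_le)
    have h3 : (S \ S').card + S'.card = S.card := by
      rw [card_sdiff_of_subset hS']
      exact Nat.sub_add_cancel (card_le_card hS')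
    have h4 : (univ \ B).card + B.card = 2 := by
      rw [card_sdiff_of_subset (subset_univ B)]
      have := card_le_univ B
      simp only [card_univ, Fintype.card_bool] at this ⊢
      omega
    omega)
  -- isolating sets
  have iso1 : ∀ g ∈ S, isolationNumber H ≤ (univ.filter (fun y => (g, y) ∈ D)).card + (E g).card := by
    intro g hg
    have h1 := fibre_isolating G H hD (I := I) {g} (by
      intro x hx; rw [Set.mem_singleton_iff] at hx; rw [hx]; exact hS hg) (E g : Set W) (by
      intro y y' hadj h
      rcases h g rfl with h | h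
      · left
        obtain ⟨z, hz, hzy⟩ := hE g hg y h
        rcases hzy with h | h
        · left; rw [← h]; exact hz
        · right; exact ⟨z, hz, h⟩
      · right
        obtain ⟨z, hz, hzy⟩ := hE g hg y' h
        rcases hzy with h | h
        · left; rw [← h]; exact hz
        · right; exact ⟨z, hz, h⟩)
    have h2 : IsIsolating H ((univ.filter (fun y => (g, y) ∈ D) ∪ E g : Finset W) : Set W) := by
      convert h1 using 1
      ext y
      simp
    exact (isolationNumber_le H h2).trans (card_union_le _ _)
  have iso2 : ∀ i, isolationNumber H ≤ (D.filter (fun x => x.1 ∈ T i)).card + (F i).card := by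
    intro i
    have h1 := fibre_isolating G H hD (I := I) (T i) (by
      intro x hx; exact hx.1) (F i : Set W) (by
      intro y y' hadj h
      rcases hF i y y' hadj h with ⟨z, hz, hzy⟩ | ⟨z, hz, hzy⟩
      · left
        rcases hzy with h | h
        · left; rw [← h]; exact hz
        · right; exact ⟨z, hz, h⟩
      · right
        rcases hzy with h | h
        · left; rw [← h]; exact hz
        · right; exact ⟨z, hz, h⟩)
    have h2 : IsIsolating H (((D.filter (fun x => x.1 ∈ T i)).image Prod.snd ∪ F i : Finset W) :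
        Set W) := by
      convert h1 using 1
      ext y
      simp only [Finset.coe_union, Finset.coe_image, Finset.coe_filter, Set.mem_union, Set.mem_image,
        Set.mem_ofPred_eq, Finset.mem_coe]
      constructor
      · rintro (⟨⟨v, w⟩, ⟨hx1, hx2⟩, rfl⟩ | h)
        · left; exact ⟨v, hx2, hx1⟩
        · right; exact h
      · rintro (⟨g, hg, hx⟩ | h)
        · left; exact ⟨(g, y), ⟨hx, hg⟩, rfl⟩
        · right; exact h
    exact (isolationNumber_le H h2).trans ((card_union_le _ _).trans
      (Nat.add_le_add card_image_le le_rfl))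
  have s1 : S.card * isolationNumber H ≤
      ∑ g ∈ S, ((univ.filter (fun y => (g, y) ∈ D)).card + (E g).card) := by
    rw [← smul_eq_mul, ← sum_const]
    exact sum_le_sum iso1
  have s2 : 2 * isolationNumber H ≤ ∑ i : Bool, ((D.filter (fun x => x.1 ∈ T i)).card + (F i).card) := by
    have : (2 : ℕ) * isolationNumber H = ∑ _i : Bool, isolationNumber H := by simp
    rw [this]
    exact sum_le_sum (fun i _ => iso2 i)
  rw [sum_add_distrib] at s1 s2
  -- counting `D`
  have c1 : ∑ g ∈ S, (univ.filter (fun y => (g, y) ∈ D)).card = (D.filter (fun x => x.1 ∈ S)).card := by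
    rw [card_eq_sum_card_fiberwise (f := Prod.fst) (t := S)]
    · apply sum_congr rfl
      intro g hg
      apply card_bij (fun y _ => (g, y))
      · intro y hy
        simp only [mem_filter, mem_univ, true_and] at hy ⊢
        exact ⟨⟨hy, hg⟩, trivial⟩
      · intro y _ y' _ h
        exact (Prod.mk.inj h).2
      · rintro ⟨v, w⟩ hx
        simp only [mem_filter] at hx
        refine ⟨w, ?_, ?_⟩
        · simp only [mem_filter, mem_univ, true_and]
          rw [← hx.2]; exact hx.1.1
        · rw [← hx.2]
    · intro x hx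
      have := mem_filter.1 (Finset.mem_coe.1 hx)
      exact this.2
  have c2 : ∑ y, (C y).card = (D.filter (fun x => x.1 ∉ I ∧ ∃ g ∈ I, G.Adj x.1 g)).card := by
    rw [card_eq_sum_card_fiberwise (f := Prod.snd) (t := (univ : Finset W))]
    · apply sum_congr rfl
      intro y _
      apply card_bij (fun v _ => (v, y))
      · intro v hv
        simp only [hC, mem_filter, mem_univ, true_and] at hv ⊢
        exact ⟨⟨hv.1, hv.2⟩, trivial⟩
      · intro v _ v' _ h
        exact (Prod.mk.inj h).1
      · rintro ⟨v, w⟩ hx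
        simp only [mem_filter] at hx
        refine ⟨v, ?_, ?_⟩
        · simp only [hC, mem_filter, mem_univ, true_and]
          rw [← hx.2]; exact ⟨hx.1.1, hx.1.2⟩
        · rw [← hx.2]
    · intro x hx
      simp
  have c3 : (D.filter (fun x => x.1 ∈ S)).card + (∑ i : Bool, (D.filter (fun x => x.1 ∈ T i)).card) +
      (D.filter (fun x => x.1 ∉ I ∧ ∃ g ∈ I, G.Adj x.1 g)).card ≤
      (D.filter (fun x => x.1 ∈ closedNbhd G I)).card := by
    rw [Fintype.sum_bool]
    have d1 : Disjoint (D.filter (fun x => x.1 ∈ T true)) (D.filter (fun x => x.1 ∈ T false)) := by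
      rw [Finset.disjoint_filter]
      intro x _ h1 h2
      simp only [hT, Set.mem_ofPred_eq, if_true, Bool.false_eq_true, if_false] at h1 h2
      exact h2.2.2 h1.2.2
    have d2 : Disjoint (D.filter (fun x => x.1 ∈ S))
        (D.filter (fun x => x.1 ∈ T true) ∪ D.filter (fun x => x.1 ∈ T false)) := by
      rw [Finset.disjoint_left]
      intro x h1 h2
      rcases mem_union.1 h2 with h | h
      · exact (mem_filter.1 h).2.2.1 (mem_filter.1 h1).2
      · exact (mem_filter.1 h).2.2.1 (mem_filter.1 h1).2
    have d3 : Disjoint (D.filter (fun x => x.1 ∈ S) ∪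
        (D.filter (fun x => x.1 ∈ T true) ∪ D.filter (fun x => x.1 ∈ T false)))
        (D.filter (fun x => x.1 ∉ I ∧ ∃ g ∈ I, G.Adj x.1 g)) := by
      rw [Finset.disjoint_left]
      intro x h1 h2
      have h3 := (mem_filter.1 h2).2.1
      rcases mem_union.1 h1 with h | h
      · exact h3 (hS (mem_filter.1 h).2)
      · rcases mem_union.1 h with h | h
        · exact h3 (mem_filter.1 h).2.1
        · exact h3 (mem_filter.1 h).2.1
    rw [← card_union_of_disjoint d1, ← card_union_of_disjoint d2, ← card_union_of_disjoint d3]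
    apply card_le_card
    intro x hx
    rw [mem_filter]
    rcases mem_union.1 hx with h | h
    · rcases mem_union.1 h with h | h
      · exact ⟨(mem_filter.1 h).1, Or.inl (hS (mem_filter.1 h).2)⟩
      · rcases mem_union.1 h with h | h
        · exact ⟨(mem_filter.1 h).1, Or.inl (mem_filter.1 h).2.1⟩
        · exact ⟨(mem_filter.1 h).1, Or.inl (mem_filter.1 h).2.1⟩
    · obtain ⟨h0, -, g, hg, hgx⟩ := mem_filter.1 h
      exact ⟨h0, Or.inr ⟨g, hg, hgx.symm⟩⟩
  rw [c2] at hsum
  rw [c1] at s1
  have : (S.card + 2) * isolationNumber H = S.card * isolationNumber H + 2 * isolationNumber H := by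
    ring
  rw [this]
  omega

end Pool.Agent.Work.MP_33f02b_co
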