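import Mathlib
import Pool.Agent.Work.MP_33f02b_co.Piece

/-!
From pieces to families of far apart independent sets.
-/

namespace Pool.Agent.Work.MP_33f02b_co

open Finset

variable {V W : Type*}

/-- `(I, k)` is admissible: `I` is independent, at least `k` vertices are needed to dominate it,
and either `k ≤ 3`, or after removing at most `k - 2` vertices from `I` the rest can be
dominated by two vertices. -/
def Admissible (G : SimpleGraph V) (I : Set V) (k : ℕ) : Prop :=
  G.IsIndepSet I ∧ k ≤ dominationOf G I ∧
    (k ≤ 3 ∨ ∃ S : Finset V, S.card + 2 ≤ k ∧ dominationOf G (I \ (S : Set V)) ≤ 2)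

lemma dominationOf_le_add [Fintype V] (G : SimpleGraph V) (I : Set V) (S : Finset V) :
    dominationOf G I ≤ S.card + dominationOf G (I \ (S : Set V)) := by
  classical
  obtain ⟨D, hD, hc⟩ := exists_dominating G (I \ (S : Set V))
  have : dominationOf G I ≤ (S ∪ D).card := by
    apply dominationOf_le
    intro v hv
    by_cases hvS : v ∈ (S : Set V)
    · left
      simp only [Finset.coe_union]
      exact Or.inl hvS
    · apply closedNbhd_mono G _ (hD ⟨hv, hvS⟩)
      simp
  have h2 := card_union_le S D
  omega

lemma piece_two' [Fintype V] [Fintype W] (G : SimpleGraph V) (H : SimpleGraph W)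
    [DecidableEq V] [DecidableEq W]
    (D : Finset (V × W)) (hD : IsIsolating (G □ H) (D : Set (V × W))) (I : Set V)
    (hI : G.IsIndepSet I) (S : Finset V) (hS : (S : Set V) ⊆ I)
    (hab : dominationOf G (I \ (S : Set V)) ≤ 2) (hk : S.card + 2 ≤ dominationOf G I)
    [DecidablePred (fun x : V × W => x.1 ∈ closedNbhd G I)] :
    (S.card + 2) * isolationNumber H ≤ (D.filter (fun x => x.1 ∈ closedNbhd G I)).card := by
  obtain ⟨D', hD', hc⟩ := exists_dominating G (I \ (S : Set V))
  have hne : I.Nonempty := by
    rw [Set.nonempty_iff_ne_empty]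
    rintro rfl
    rw [dominationOf_empty] at hk
    omega
  obtain ⟨x0, -⟩ := hne
  have : ∃ a b : V, D' ⊆ {a, b} := by
    rw [← hc] at hab
    interval_cases h : D'.card
    · exact ⟨x0, x0, by rw [Finset.card_eq_zero.1 h]; simp⟩
    · obtain ⟨a, ha⟩ := Finset.card_eq_one.1 h
      exact ⟨a, a, by rw [ha]; simp⟩
    · obtain ⟨a, b, -, hab'⟩ := Finset.card_eq_two.1 h
      exact ⟨a, b, by rw [hab']⟩
  obtain ⟨a, b, hab'⟩ := this
  apply piece_two G H D hD I hI S hS a b _ hk
  intro v hv
  by_cases hvS : v ∈ (S : Set V)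
  · exact Or.inl hvS
  · right
    apply closedNbhd_mono G _ (hD' ⟨hv, hvS⟩)
    intro w hw
    have := hab' hw
    simpa using this

lemma filter_mono_card {α : Type*} (D : Finset α) (p q : α → Prop) [DecidablePred p]
    [DecidablePred q] (h : ∀ x, p x → q x) : (D.filter p).card ≤ (D.filter q).card :=
  card_le_card (fun x hx => by
    rw [mem_filter] at hx ⊢
    exact ⟨hx.1, h x hx.2⟩)

lemma piece_small [Fintype V] [Fintype W] (G : SimpleGraph V) (H : SimpleGraph W)
    [DecidableEq V] [DecidableEq W]
    (D : Finset (V × W)) (hD : IsIsolating (G □ H) (D : Set (V × W))) (I : Set V)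
    (hI : G.IsIndepSet I) (k : ℕ) (hk : k ≤ dominationOf G I) (hk3 : k ≤ 3)
    [DecidablePred (fun x : V × W => x.1 ∈ closedNbhd G I)] :
    k * isolationNumber H ≤ (D.filter (fun x => x.1 ∈ closedNbhd G I)).card := by
  classical
  rcases Nat.eq_zero_or_pos k with rfl | hk0
  · simp
  -- a minimal subset
  obtain ⟨J, hJ, hmin⟩ := Finset.exists_min_image
    ((Finset.univ : Finset (Finset V)).filter
      (fun J : Finset V => (J : Set V) ⊆ I ∧ k ≤ dominationOf G (J : Set V)))
    (fun J : Finset V => J.card) ⟨I.toFinset, by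
      simp only [mem_filter, mem_univ, true_and, Set.coe_toFinset]
      exact ⟨subset_rfl, hk⟩⟩
  simp only [mem_filter, mem_univ, true_and] at hJ hmin
  obtain ⟨hJI, hkJ⟩ := hJ
  have hcrit : ∀ g ∈ J, dominationOf G ((J : Set V) \ ({g} : Finset V)) ≤ k - 1 := by
    intro g hg
    by_contra hcon
    have h1 : k ≤ dominationOf G ((J.erase g : Finset V) : Set V) := by
      have e : ((J.erase g : Finset V) : Set V) = (J : Set V) \ ({g} : Finset V) := by
        ext x; simp
      rw [e]; omega
    have h2 := hmin (J.erase g) ⟨fun x hx => hJI (Finset.mem_of_mem_erase hx), h1⟩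
    have h3 := Finset.card_erase_lt_of_mem hg
    omega
  have hJne : J.Nonempty := by
    rw [Finset.nonempty_iff_ne_empty]
    rintro rfl
    rw [Finset.coe_empty, dominationOf_empty] at hkJ
    omega
  obtain ⟨g, hg⟩ := hJne
  have hJind : G.IsIndepSet (J : Set V) := hI.mono hJI
  refine le_trans ?_ (filter_mono_card D (fun x => x.1 ∈ closedNbhd G (J : Set V))
    (fun x => x.1 ∈ closedNbhd G I) (fun x hx => closedNbhd_mono G hJI hx))
  have hc := hcrit g hg
  interval_cases k
  · rw [one_mul]
    refine le_trans (piece_one G H D hD g) (filter_mono_card D _ _ (fun x hx => ?_))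
    apply closedNbhd_mono G _ hx
    intro y hy
    rw [Set.mem_singleton_iff] at hy
    rw [hy]; exact hg
  · have := piece_two' G H D hD (J : Set V) hJind ∅ (by simp) (by
      have := dominationOf_le_add G (J : Set V) {g}
      simp only [Finset.coe_empty, Set.sdiff_empty]
      simp only [Finset.card_singleton] at this
      omega) (by simpa using hkJ)
    simpa using this
  · have := piece_two' G H D hD (J : Set V) hJind {g} (by simpa using hg) (by omega)
      (by simpa using hkJ)
    simpa using this

lemma piece_admissible [Fintype V] [Fintype W] (G : SimpleGraph V) (H : SimpleGraph W)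
    [DecidableEq V] [DecidableEq W]
    (D : Finset (V × W)) (hD : IsIsolating (G □ H) (D : Set (V × W))) (I : Set V) (k : ℕ)
    (hadm : Admissible G I k)
    [DecidablePred (fun x : V × W => x.1 ∈ closedNbhd G I)] :
    k * isolationNumber H ≤ (D.filter (fun x => x.1 ∈ closedNbhd G I)).card := by
  classical
  obtain ⟨hI, hk, h3 | ⟨S, hS, h2⟩⟩ := hadm
  · exact piece_small G H D hD I hI k hk h3
  · have e : I \ ((S.filter (· ∈ I) : Finset V) : Set V) = I \ (S : Set V) := by
      ext x
      simp only [Finset.coe_filter, Set.mem_sdiff, Set.mem_ofPred_eq, Finset.mem_coe]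
      tauto
    have h4 := dominationOf_le_add G I (S.filter (· ∈ I))
    rw [e] at h4
    have h5 := card_filter_le S (· ∈ I)
    have h6 : k = (S.filter (· ∈ I)).card + 2 := by omega
    rw [h6]
    apply piece_two' G H D hD I hI (S.filter (· ∈ I)) _ (by rw [e]; exact h2) (by omega)
    intro x hx
    exact (mem_filter.1 (Finset.mem_coe.1 hx)).2

/-- The main inequality for families of independent sets with disjoint closed neighbourhoods. -/
theorem family_bound [Fintype V] [Fintype W] (G : SimpleGraph V) (H : SimpleGraph W)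
    {τ : Type*} (F : Finset τ) (I : τ → Set V) (k : τ → ℕ) (hadm : ∀ t ∈ F, Admissible G (I t) (k t))
    (hfar : ∀ s ∈ F, ∀ t ∈ F, s ≠ t → Disjoint (closedNbhd G (I s)) (closedNbhd G (I t))) :
    (∑ t ∈ F, k t) * isolationNumber H ≤ isolationNumber (G □ H) := by
  classical
  obtain ⟨D, hD, hc⟩ := exists_isolating (G □ H)
  rw [← hc, Finset.sum_mul]
  calc ∑ t ∈ F, k t * isolationNumber H
      ≤ ∑ t ∈ F, (D.filter (fun x => x.1 ∈ closedNbhd G (I t))).card :=
        Finset.sum_le_sum (fun t ht => piece_admissible G H D hD (I t) (k t) (hadm t ht))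
    _ = (F.biUnion (fun t => D.filter (fun x => x.1 ∈ closedNbhd G (I t)))).card := by
        rw [Finset.card_biUnion]
        intro s hs t ht hst
        rw [Function.onFun, Finset.disjoint_filter]
        intro x _ h1 h2
        exact Set.disjoint_left.1 (hfar s hs t ht hst) h1 h2
    _ ≤ D.card := by
        apply card_le_card
        intro x hx
        obtain ⟨t, -, ht⟩ := Finset.mem_biUnion.1 hx
        exact (mem_filter.1 ht).1

end Pool.Agent.Work.MP_33f02b_co
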